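import Pool.Agent.Q220.TruthTree.Trans

namespace Pool.Agent.Results.MP_3f42a7_lc.Omissibility

open Q220.TruthTree

/-- The set of acceptable formulas has the omissibility property: if `β` has no sentence letter in
common with `α` or with `γ`, and `(α ∧ β) → γ` or `α → (β ∨ γ)` is acceptable, then `α → γ` is
acceptable. -/
theorem result (α β γ : Form) (hβ : ∀ n, Occurs n β → ¬ Occurs n α ∧ ¬ Occurs n γ)
    (h : Form.imp (.and α β) γ ∈ Acceptable ∨ Form.imp α (.or β γ) ∈ Acceptable) :
    Form.imp α γ ∈ Acceptable :=
  omissibility α β γ hβ h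

end Pool.Agent.Results.MP_3f42a7_lc.Omissibility
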